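import Mathlib
import Pool.Agent.H135R2.VS.Der

/-!
Algebra for piece JAC.
-/

namespace Run7.h433.MD

theorem algInd_transfer {k R A K : Type} [Field k] [CommRing R] [Algebra k R] [CommRing A]
    [Algebra k A] [Field K] [Algebra k K] [Algebra R K] [IsScalarTower k R K]
    (hinj : Function.Injective (algebraMap R K)) (f : R →ₐ[k] A) (S : Submonoid R)
    (hunit : ∀ y : S, IsUnit (f y)) {a : ℕ} (t : Fin a → A)
    (P Q : Fin a → R) (hQ : ∀ i, Q i ∈ S) (hPQ : ∀ i, t i * f (Q i) = f (P i))
    (ht : AlgebraicIndependent k t) (hQ0 : ∀ x ∈ S, x ≠ 0) :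
    AlgebraicIndependent k fun i => (algebraMap R K (P i) / algebraMap R K (Q i)) := by
  let g : R →ₐ[k] K := IsScalarTower.toAlgHom k R K
  have hg : ∀ x, g x = algebraMap R K x := fun x => rfl
  have hunit2 : ∀ y : S, IsUnit (g y) := by
    intro y
    refine IsUnit.mk0 _ fun h => ?_
    exact hQ0 y.1 y.2 (hinj (by rw [map_zero]; exact h))
  let Φ : Localization S →ₐ[k] A := IsLocalization.liftAlgHom (M := S) (f := f) hunit
  let Ψ : Localization S →ₐ[k] K := IsLocalization.liftAlgHom (M := S) (f := g) hunit2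
  have hΦ : ∀ p : R, Φ (algebraMap R (Localization S) p) = f p := fun p =>
    IsLocalization.lift_eq (M := S) (g := (f : R →+* A)) hunit p
  have hΨ : ∀ p : R, Ψ (algebraMap R (Localization S) p) = algebraMap R K p := fun p =>
    IsLocalization.lift_eq (M := S) (g := (g : R →+* K)) hunit2 p
  let T : Fin a → Localization S := fun i => IsLocalization.mk' (Localization S) (P i)
    (⟨Q i, hQ i⟩ : S)
  have hT : ∀ i, T i * algebraMap R (Localization S) (Q i) =
      algebraMap R (Localization S) (P i) := fun i =>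
    IsLocalization.mk'_spec (Localization S) (P i) (⟨Q i, hQ i⟩ : S)
  have h1 : AlgebraicIndependent k T := by
    apply AlgebraicIndependent.of_comp Φ
    have h2 : (⇑Φ ∘ T) = t := by
      funext i
      have h3 := congrArg Φ (hT i)
      rw [map_mul, hΦ, hΦ, ← hPQ i] at h3
      exact (hunit ⟨Q i, hQ i⟩).mul_right_cancel h3
    rw [h2]
    exact ht
  have hinj2 : Function.Injective Ψ := by
    rw [injective_iff_map_eq_zero]
    intro x hx
    obtain ⟨⟨p, s⟩, hps⟩ := IsLocalization.surj S x
    have h3 := congrArg Ψ hps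
    rw [map_mul, hx, zero_mul, hΨ] at h3
    have h4 : p = 0 := hinj (by rw [map_zero]; exact h3.symm)
    change x * algebraMap R (Localization S) s = algebraMap R (Localization S) p at hps
    rw [h4, map_zero] at hps
    exact (IsLocalization.map_units (Localization S) s).mul_left_eq_zero.1 hps
  have h6 := h1.map' hinj2
  have h7 : (⇑Ψ ∘ T) = fun i => (algebraMap R K (P i) / algebraMap R K (Q i)) := by
    funext i
    have h3 := congrArg Ψ (hT i)
    rw [map_mul, hΨ, hΨ] at h3
    have hne : algebraMap R K (Q i) ≠ 0 := by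
      intro h
      exact hQ0 (Q i) (hQ i) (hinj (by rw [map_zero]; exact h))
    change Ψ (T i) = _
    rw [eq_div_iff hne, h3]
  rw [← h7]
  exact h6

theorem fr_aux {K : Type} [Field K] (p q e f : K) (hq : q ≠ 0) :
    q * (p / q * e + q * f) - p * e = q ^ 2 * f := by
  field_simp
  ring

/-- Algebraically independent fractions have a left inverse of the matrix of numerators of the
partial derivatives, up to a denominator. -/
theorem jac_abs {k R K σ : Type} [Field k] [CharZero k] [CommRing R] [Algebra k R] [Field K]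
    [Algebra k K] [Algebra R K] [IsScalarTower k R K] [IsDomain R] [IsFractionRing R K]
    [Fintype σ] (X : σ → R) (pd : σ → R → R)
    (hder : ∀ (D : Derivation k K K) (P : R), D (algebraMap R K P) =
      ∑ q, algebraMap R K (pd q P) * D (algebraMap R K (X q)))
    {a : ℕ} (P Q : Fin a → R) (hQ : ∀ i, Q i ≠ 0)
    (hT : AlgebraicIndependent k fun i => (algebraMap R K (P i) / algebraMap R K (Q i))) :
    ∃ (B : R) (C' : Fin a → σ → R), B ≠ 0 ∧ ∀ i j,
      ∑ q, (pd q (P i) * Q i - P i * pd q (Q i)) * C' j q =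
        if i = j then B * Q i ^ 2 else 0 := by
  classical
  have hinj : Function.Injective (algebraMap R K) := IsFractionRing.injective _ _
  have hQ' : ∀ i, algebraMap R K (Q i) ≠ 0 := fun i h => hQ i (hinj (by rw [h, map_zero]))
  have hD : ∀ j : Fin a, ∃ D : Derivation k K K, ∀ i,
      D (algebraMap R K (P i) / algebraMap R K (Q i)) = if i = j then 1 else 0 := fun j =>
    Pool.Agent.H135R2.VS.exists_der hT (fun i => if i = j then 1 else 0)
  choose D hD using hD
  obtain ⟨⟨B, hB⟩, hB2⟩ := IsLocalization.exist_integer_multiples (nonZeroDivisors R)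
    (Finset.univ : Finset (Fin a × σ)) (fun p => D p.1 (algebraMap R K (X p.2)))
  have hB3 : ∀ p : Fin a × σ, ∃ c : R, algebraMap R K c =
      algebraMap R K B * D p.1 (algebraMap R K (X p.2)) := by
    intro p
    obtain ⟨c, hc⟩ := hB2 p (Finset.mem_univ _)
    refine ⟨c, ?_⟩
    rw [hc, Algebra.smul_def]
  choose c hc using hB3
  refine ⟨B, fun j q => c (j, q), nonZeroDivisors.ne_zero hB, fun i j => hinj ?_⟩
  rw [map_sum]
  have h1 : ∀ q, algebraMap R K ((pd q (P i) * Q i - P i * pd q (Q i)) * c (j, q)) =
      algebraMap R K B * (algebraMap R K (Q i) * (algebraMap R K (pd q (P i)) *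
        D j (algebraMap R K (X q))) - algebraMap R K (P i) * (algebraMap R K (pd q (Q i)) *
        D j (algebraMap R K (X q)))) := by
    intro q
    rw [map_mul, hc, map_sub, map_mul, map_mul]
    ring
  rw [Finset.sum_congr rfl fun q _ => h1 q, ← Finset.mul_sum, Finset.sum_sub_distrib,
    ← Finset.mul_sum, ← Finset.mul_sum, ← hder, ← hder]
  have h2 : algebraMap R K (P i) = algebraMap R K (P i) / algebraMap R K (Q i) *
      algebraMap R K (Q i) := by
    rw [div_mul_cancel₀ _ (hQ' i)]
  have h3 : D j (algebraMap R K (P i)) = algebraMap R K (P i) / algebraMap R K (Q i) *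
      D j (algebraMap R K (Q i)) + algebraMap R K (Q i) * (if i = j then 1 else 0) := by
    conv_lhs => rw [h2]
    rw [Derivation.leibniz, hD, smul_eq_mul, smul_eq_mul]
  rw [h3, fr_aux _ _ _ _ (hQ' i)]
  by_cases h : i = j
  · rw [if_pos h, if_pos h, map_mul, map_pow, mul_one]
  · rw [if_neg h, if_neg h, map_zero, mul_zero, mul_zero]

end Run7.h433.MD
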