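import Pool.Agent.Run7.h342.MD.Stm
import Pool.Agent.Run7.h433.MD.JacA

/-!
Piece JAC: algebraically independent functions have independent differentials somewhere.
-/

namespace Run7.h433.MD

open MvPolynomial Run7.h342.MD

noncomputable section

section gen

variable {k σ : Type} [Field k]

/-- A derivation of the function field on polynomials. -/
theorem der_poly [Fintype σ] (D : Derivation k (FractionRing (MvPolynomial σ k))
    (FractionRing (MvPolynomial σ k))) (P : MvPolynomial σ k) :
    D (algebraMap (MvPolynomial σ k) (FractionRing (MvPolynomial σ k)) P) =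
      ∑ q, algebraMap (MvPolynomial σ k) (FractionRing (MvPolynomial σ k)) (pderiv q P) *
        D (algebraMap (MvPolynomial σ k) (FractionRing (MvPolynomial σ k)) (X q)) := by
  classical
  induction P using MvPolynomial.induction_on with
  | C a =>
    have h1 : algebraMap (MvPolynomial σ k) (FractionRing (MvPolynomial σ k)) (C a) =
        algebraMap k (FractionRing (MvPolynomial σ k)) a := by
      rw [← algebraMap_eq, ← IsScalarTower.algebraMap_apply]
    rw [h1, Derivation.map_algebraMap]
    symm
    refine Finset.sum_eq_zero fun q _ => ?_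
    rw [pderiv_C, map_zero, zero_mul]
  | add p q hp hq =>
    rw [map_add, map_add, hp, hq, ← Finset.sum_add_distrib]
    refine Finset.sum_congr rfl fun q _ => ?_
    rw [map_add, map_add, add_mul]
  | mul_X p j hp =>
    rw [map_mul, Derivation.leibniz, hp, smul_eq_mul, smul_eq_mul, Finset.mul_sum]
    have h1 : ∀ q, algebraMap (MvPolynomial σ k) (FractionRing (MvPolynomial σ k))
        (pderiv q (p * X j)) * D (algebraMap (MvPolynomial σ k)
          (FractionRing (MvPolynomial σ k)) (X q)) =
        (if q = j then algebraMap (MvPolynomial σ k) (FractionRing (MvPolynomial σ k)) p *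
          D (algebraMap (MvPolynomial σ k) (FractionRing (MvPolynomial σ k)) (X j)) else 0) +
        algebraMap (MvPolynomial σ k) (FractionRing (MvPolynomial σ k)) (X j) *
          (algebraMap (MvPolynomial σ k) (FractionRing (MvPolynomial σ k)) (pderiv q p) *
          D (algebraMap (MvPolynomial σ k) (FractionRing (MvPolynomial σ k)) (X q))) := by
      intro q
      rw [pderiv_mul, map_add, map_mul, map_mul]
      by_cases h : q = j
      · subst h
        rw [pderiv_X_self, map_one, if_pos rfl]
        ring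
      · rw [pderiv_X_of_ne fun h' => h h'.symm, map_zero, if_neg h]
        ring
    rw [Finset.sum_congr rfl fun q _ => h1 q, Finset.sum_add_distrib, Finset.sum_ite_eq',
      if_pos (Finset.mem_univ _)]

end gen

variable {n d : ℕ} {k : Type} [Field k] [IsAlgClosed k] [CharZero k]

set_option linter.unusedSectionVars false

/-- The polynomials without zeros on the nondegenerate vectors. -/
def Sm (n d : ℕ) (k : Type) [Field k] : Submonoid (MvPolynomial (Ix n d) k) where
  carrier := {Q | ∀ x : U n d k, eval x.1 Q ≠ 0}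
  mul_mem' := by
    intro a b ha hb x
    rw [map_mul]
    exact mul_ne_zero (ha x) (hb x)
  one_mem' := by
    intro x
    rw [map_one]
    exact one_ne_zero

/-- evaluation of polynomials on the nondegenerate vectors -/
def evF (n d : ℕ) (k : Type) [Field k] : MvPolynomial (Ix n d) k →ₐ[k] (U n d k → k) where
  toFun P x := eval x.1 P
  map_one' := by funext x; exact map_one _
  map_mul' P Q := by funext x; exact map_mul _ _ _
  map_zero' := by funext x; exact map_zero _
  map_add' P Q := by funext x; exact map_add _ _ _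
  commutes' a := by
    funext x
    exact eval_C a

theorem algInd_frac (hne : Nonempty (U n d k)) {a : ℕ} (t : Fin a → U n d k → k)
    (ht : AlgebraicIndependent k t) (P Q : Fin a → MvPolynomial (Ix n d) k)
    (hPQ : ∀ i, RepU (t i) (P i) (Q i)) :
    AlgebraicIndependent k fun i =>
      (algebraMap (MvPolynomial (Ix n d) k) (FractionRing (MvPolynomial (Ix n d) k)) (P i) /
        algebraMap (MvPolynomial (Ix n d) k) (FractionRing (MvPolynomial (Ix n d) k)) (Q i)) := by
  obtain ⟨x₀⟩ := hne
  have hinj : Function.Injective (algebraMap (MvPolynomial (Ix n d) k)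
    (FractionRing (MvPolynomial (Ix n d) k))) := IsFractionRing.injective _ _
  refine algInd_transfer (k := k) (R := MvPolynomial (Ix n d) k) (A := U n d k → k)
    (K := FractionRing (MvPolynomial (Ix n d) k)) hinj (evF n d k) (Sm n d k) ?_ t P Q
    (fun i x => (hPQ i x).1) ?_ ht ?_
  · intro y
    refine IsUnit.of_mul_eq_one (fun x => (eval x.1 y.1)⁻¹) ?_
    funext x
    exact mul_inv_cancel₀ (y.2 x)
  · intro i
    funext x
    change t i x * eval x.1 (Q i) = eval x.1 (P i)
    rw [(hPQ i x).2, div_mul_cancel₀ _ (hPQ i x).1]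
  · intro Q hQ h
    apply hQ x₀
    rw [h, map_zero]

theorem exists_point (P : MvPolynomial (Ix n d) k) (hP : P ≠ 0) :
    ∃ c : Ix n d → k, eval c P ≠ 0 := by
  by_contra h
  push Not at h
  apply hP
  apply MvPolynomial.funext
  intro x
  rw [h, map_zero]

theorem dd_single (P : MvPolynomial (Ix n d) k) (c : Ix n d → k) (q : Ix n d) :
    dd P c (Pi.single q 1) = eval c (pderiv q P) := by
  classical
  unfold dd
  rw [Finset.sum_eq_single q]
  · rw [Pi.single_eq_same, one_mul]
  · intro b _ hb
    rw [Pi.single_eq_of_ne hb, zero_mul]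
  · intro h
    exact absurd (Finset.mem_univ _) h

theorem t_JAC (h1 : S_RES n d k) (_h2 : S_REPU n d k) (h3 : S_DU n d k) : S_JAC n d k := by
  classical
  obtain ⟨Θ, hΘ⟩ := h1
  intro a t ht hind
  have hΘ0 : Θ ≠ 0 := hΘ.irr.ne_zero
  have hne : Nonempty (U n d k) := by
    obtain ⟨c, hc⟩ := exists_point Θ hΘ0
    exact ⟨⟨c, (hΘ.iff c).1 hc⟩⟩
  choose P Q hPQ using ht
  have hQ0 : ∀ i, Q i ≠ 0 := by
    intro i h
    obtain ⟨x₀⟩ := hne
    apply (hPQ i x₀).1
    rw [h, map_zero]
  obtain ⟨B, C', hB, hBC⟩ := jac_abs (k := k) (R := MvPolynomial (Ix n d) k)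
    (K := FractionRing (MvPolynomial (Ix n d) k)) (σ := Ix n d) X (fun q P => pderiv q P)
    (fun D P => der_poly D P) P Q hQ0 (algInd_frac hne t hind P Q hPQ)
  obtain ⟨c, hc⟩ := exists_point (B * Θ) (mul_ne_zero hB hΘ0)
  rw [map_mul] at hc
  have hcU : Nondeg c := (hΘ.iff c).1 (right_ne_zero_of_mul hc)
  have hcB := left_ne_zero_of_mul hc
  refine ⟨⟨c, hcU⟩, ?_⟩
  rw [Fintype.linearIndependent_iff]
  intro g hg j
  have hQc : ∀ i, eval c (Q i) ≠ 0 := fun i => (hPQ i ⟨c, hcU⟩).1
  have h4 : ∀ i q, dU (t i) ⟨c, hcU⟩ (Pi.single q 1) * eval c (Q i) ^ 2 =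
      eval c (pderiv q (P i) * Q i - P i * pderiv q (Q i)) := by
    intro i q
    rw [h3.rep (t i) (P i) (Q i) (hPQ i), dd_single, dd_single, map_sub, map_mul, map_mul,
      div_mul_cancel₀ _ (pow_ne_zero 2 (hQc i))]
  have h5 : ∀ q, ∑ i, g i * dU (t i) ⟨c, hcU⟩ (Pi.single q 1) = 0 := by
    intro q
    have h6 := congrFun hg q
    simpa [Finset.sum_apply] using h6
  have h7 : ∀ i, ∑ q, dU (t i) ⟨c, hcU⟩ (Pi.single q 1) * eval c (C' j q) =
      if i = j then eval c B else 0 := by
    intro i
    have h8 := congrArg (eval c) (hBC i j)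
    rw [map_sum] at h8
    have h9 : ∀ q, eval c ((pderiv q (P i) * Q i - P i * pderiv q (Q i)) * C' j q) =
        (dU (t i) ⟨c, hcU⟩ (Pi.single q 1) * eval c (C' j q)) * eval c (Q i) ^ 2 := by
      intro q
      rw [map_mul, ← h4]
      ring
    rw [Finset.sum_congr rfl fun q _ => h9 q, ← Finset.sum_mul] at h8
    have h10 := pow_ne_zero 2 (hQc i)
    apply mul_right_cancel₀ h10
    rw [h8]
    by_cases h : i = j
    · rw [if_pos h, if_pos h, map_mul, map_pow]
    · rw [if_neg h, if_neg h, map_zero, zero_mul]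
  have h11 : ∑ i, g i * ∑ q, dU (t i) ⟨c, hcU⟩ (Pi.single q 1) * eval c (C' j q) = 0 := by
    simp only [Finset.mul_sum]
    rw [Finset.sum_comm]
    refine Finset.sum_eq_zero fun q _ => ?_
    have h12 : ∀ i, g i * (dU (t i) ⟨c, hcU⟩ (Pi.single q 1) * eval c (C' j q)) =
        (g i * dU (t i) ⟨c, hcU⟩ (Pi.single q 1)) * eval c (C' j q) := fun i => by ring
    rw [Finset.sum_congr rfl fun i _ => h12 i, ← Finset.sum_mul, h5, zero_mul]
  simp only [h7] at h11
  simp only [mul_ite, mul_zero, Finset.sum_ite_eq', Finset.mem_univ, if_true] at h11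
  exact (mul_eq_zero.1 h11).resolve_right hcB

end

end Run7.h433.MD
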