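import Mathlib

/-!
Nakayama for the module of differentials of a subalgebra, abstract form.
-/

namespace Run7.h433.MD

theorem nak {k A V : Type} [Field k] [CommRing A] [Algebra k A] [IsNoetherianRing A]
    [AddCommGroup V] [Module A V] [IsNoetherian A V] (D : A → V)
    (Dadd : ∀ a b, D (a + b) = D a + D b) (Dmul : ∀ a b, D (a * b) = a • D b + b • D a)
    (Dc : ∀ c : k, D (algebraMap k A c) = 0) (e : A →+* k)
    (he : ∀ c : k, e (algebraMap k A c) = c) (B : Set A)
    (hB : ∀ a ∈ B, ∀ c : k, a - algebraMap k A c ∈ B)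
    (r : ℕ) (t : Fin r → A) (het : ∀ i, e (t i) = 0)
    (hgen : ∀ φ ∈ B, e φ = 0 → ∃ s ∈ B, e s ≠ 0 ∧ ∃ a : Fin r → A, (∀ i, a i ∈ B) ∧
      s * φ = ∑ i, a i * t i) :
    ∃ b : A, e b = 1 ∧ ∀ φ ∈ B, ∃ a : Fin r → A, ∑ i, a i • D (t i) = b • D φ := by
  have D0 : D 0 = 0 := by
    have := Dc 0
    rwa [map_zero] at this
  have Dsum : ∀ (φ : Fin r → A), D (∑ i, φ i) = ∑ i, D (φ i) := by
    intro φ
    have : ∀ s : Finset (Fin r), D (∑ i ∈ s, φ i) = ∑ i ∈ s, D (φ i) := by
      intro s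
      induction s using Finset.induction_on with
      | empty => rw [Finset.sum_empty, Finset.sum_empty, D0]
      | insert a s ha ih => rw [Finset.sum_insert ha, Finset.sum_insert ha, Dadd, ih]
    exact this _
  set M : Submodule A V := Submodule.span A {x | ∃ φ ∈ B, x = D φ} with hM
  set N : Submodule A V := Submodule.span A (Set.range fun i => D (t i)) with hN
  have hDM : ∀ φ ∈ B, D φ ∈ M := fun φ hφ => Submodule.subset_span ⟨φ, hφ, rfl⟩
  have hDN : ∀ i, D (t i) ∈ N := fun i => Submodule.subset_span ⟨i, rfl⟩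
  set I : Ideal A := RingHom.ker e with hI
  have hMle : M ≤ N ⊔ I • M := by
    refine Submodule.span_le.2 ?_
    rintro x ⟨φ, hφ, rfl⟩
    change D φ ∈ N ⊔ I • M
    obtain ⟨φ', hφ'⟩ : ∃ φ' : A, φ' = φ - algebraMap k A (e φ) := ⟨_, rfl⟩
    have h4 : φ' ∈ B := by rw [hφ']; exact hB _ hφ _
    have h5 : e φ' = 0 := by rw [hφ', map_sub, he, sub_self]
    have h6 : D φ = D φ' := by
      have : φ = φ' + algebraMap k A (e φ) := by rw [hφ']; ring
      conv_lhs => rw [this]
      rw [Dadd, Dc, add_zero]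
    obtain ⟨s, hs, hsF, a, ha, h8⟩ := hgen φ' h4 h5
    have h9 := congrArg D h8
    rw [Dmul, Dsum] at h9
    simp only [Dmul] at h9
    rw [Finset.sum_add_distrib] at h9
    have h10 : s • D φ' = ∑ i, a i • D (t i) + (∑ i, t i • D (a i) - φ' • D s) := by
      rw [eq_sub_of_add_eq h9]
      abel
    have h11 : s • D φ' ∈ N ⊔ I • M := by
      rw [h10]
      refine Submodule.add_mem_sup ?_ ?_
      · exact Submodule.sum_mem _ fun i _ => Submodule.smul_mem _ _ (hDN i)
      · refine Submodule.sub_mem _ (Submodule.sum_mem _ fun i _ => ?_) ?_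
        · exact Submodule.smul_mem_smul ((RingHom.mem_ker).2 (het i)) (hDM _ (ha i))
        · exact Submodule.smul_mem_smul ((RingHom.mem_ker).2 h5) (hDM _ hs)
    have huI : s - algebraMap k A (e s) ∈ I := by
      rw [hI, RingHom.mem_ker, map_sub, he, sub_self]
    have h12 : (s - algebraMap k A (e s)) • D φ' ∈ I • M := Submodule.smul_mem_smul huI (hDM _ h4)
    have h14 : algebraMap k A (e s) • D φ' = s • D φ' - (s - algebraMap k A (e s)) • D φ' := by
      rw [sub_smul]
      abel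
    have h13 : algebraMap k A (e s) • D φ' ∈ N ⊔ I • M := by
      rw [h14]
      exact Submodule.sub_mem _ h11 ((le_sup_right : I • M ≤ N ⊔ I • M) h12)
    have h15 : D φ = algebraMap k A (e s)⁻¹ • (algebraMap k A (e s) • D φ') := by
      rw [smul_smul, ← map_mul, inv_mul_cancel₀ hsF, map_one, one_smul, h6]
    rw [h15]
    exact Submodule.smul_mem _ _ h13
  have hfg : (M.map N.mkQ).FG := (IsNoetherian.noetherian M).map _
  have hle : M.map N.mkQ ≤ I • M.map N.mkQ := by
    calc M.map N.mkQ ≤ (N ⊔ I • M).map N.mkQ := Submodule.map_mono hMle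
      _ = I • M.map N.mkQ := by
        rw [Submodule.map_sup, Submodule.mkQ_map_self, bot_sup_eq, Submodule.map_smul'']
  obtain ⟨b, hb, hb2⟩ := Submodule.exists_sub_one_mem_and_smul_eq_zero_of_fg_of_le_smul I _ hfg hle
  refine ⟨b, ?_, fun φ hφ => ?_⟩
  · rw [hI, RingHom.mem_ker, map_sub, map_one] at hb
    exact sub_eq_zero.1 hb
  · have h20 : b • D φ ∈ N := by
      have h21 := hb2 (N.mkQ (D φ)) (Submodule.mem_map_of_mem (hDM φ hφ))
      rw [← map_smul] at h21
      rwa [← Submodule.ker_mkQ N, LinearMap.mem_ker]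
    rw [hN, Submodule.mem_span_range_iff_exists_fun] at h20
    exact h20

end Run7.h433.MD
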