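import Pool.Agent.Run7.h342.MD.Stm
import Pool.Agent.Run7.h433.MD.Nak

/-!
Piece SPAN: Nakayama for differentials.
-/

namespace Run7.h433.MD

open MvPolynomial Run7.h342.MD

noncomputable section

variable {n d : ℕ} {k : Type} [Field k] [IsAlgClosed k] [CharZero k]

set_option linter.unusedSectionVars false

/-- the directional derivative as a linear map -/
def dlin (h3 : S_DU n d k) {φ : U n d k → k} (hφ : RegU φ) (c : U n d k) :
    (Ix n d → k) →ₗ[k] k where
  toFun := dU φ c
  map_add' := h3.add_v φ hφ c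
  map_smul' a v := h3.smul_v φ hφ c a v

theorem dU_sum (h3 : S_DU n d k) {φ : U n d k → k} (hφ : RegU φ) (c : U n d k)
    (v : Ix n d → k) : dU φ c v = ∑ q, v q * dU φ c (Pi.single q 1) := by
  have h1 := LinearMap.pi_apply_eq_sum_univ (dlin h3 hφ c) v
  change dU φ c v = _ at h1
  rw [h1]
  refine Finset.sum_congr rfl fun q _ => ?_
  have h2 : (fun j : Ix n d => if q = j then (1 : k) else 0) = Pi.single q 1 := by
    funext j
    rw [Pi.single_apply]
    by_cases h : q = j
    · rw [if_pos h, if_pos h.symm]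
    · rw [if_neg h, if_neg fun h' => h h'.symm]
  rw [h2]
  rfl

/-- the differential of a regular function -/
def DD (h3 : S_DU n d k) (φ : OU n d k) : Ix n d → OU n d k := fun q =>
  ⟨fun c => dU φ.1 c (Pi.single q 1), h3.reg φ.1 φ.2 _⟩

theorem DD_add (h3 : S_DU n d k) (φ ψ : OU n d k) : DD h3 (φ + ψ) = DD h3 φ + DD h3 ψ := by
  funext q
  apply Subtype.ext
  funext c
  exact h3.add φ.1 ψ.1 φ.2 ψ.2 c _

theorem DD_mul (h3 : S_DU n d k) (φ ψ : OU n d k) :
    DD h3 (φ * ψ) = φ • DD h3 ψ + ψ • DD h3 φ := by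
  funext q
  apply Subtype.ext
  funext c
  exact h3.mul φ.1 ψ.1 φ.2 ψ.2 c _

theorem DD_const (h3 : S_DU n d k) (a : k) : DD h3 (algebraMap k (OU n d k) a) = 0 := by
  funext q
  apply Subtype.ext
  funext c
  exact h3.const a c _

theorem DD_zero (h3 : S_DU n d k) : DD h3 0 = 0 := by
  have := DD_const h3 0
  rwa [map_zero] at this

theorem DD_sum (h3 : S_DU n d k) {τ : Type} (s : Finset τ) (φ : τ → OU n d k) :
    DD h3 (∑ i ∈ s, φ i) = ∑ i ∈ s, DD h3 (φ i) := by
  classical
  induction s using Finset.induction_on with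
  | empty => rw [Finset.sum_empty, Finset.sum_empty, DD_zero]
  | insert a s ha ih => rw [Finset.sum_insert ha, Finset.sum_insert ha, DD_add, ih]

/-- evaluation at a point -/
def evU (F : U n d k) : OU n d k →+* k :=
  (Pi.evalRingHom (fun _ : U n d k => k) F).comp (OU n d k).toSubring.subtype

theorem evU_apply (F : U n d k) (φ : OU n d k) : evU F φ = φ.1 F := rfl

theorem t_SPAN (h1 : S_RES n d k) (h2 : S_REPU n d k) (h3 : S_DU n d k) : S_SPAN n d k := by
  intro F r t ht
  obtain ⟨Θ, hΘ⟩ := h1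
  have hft : Algebra.FiniteType k (OU n d k) := (h2 Θ hΘ).2
  have hnoe : IsNoetherianRing (OU n d k) := Algebra.FiniteType.isNoetherianRing k (OU n d k)
  have htU : ∀ i, RegU (t i) := fun i => (ht.mem i).1
  obtain ⟨b, hbF, hb⟩ := nak (k := k) (A := OU n d k) (V := Ix n d → OU n d k) (DD h3)
    (DD_add h3) (DD_mul h3) (DD_const h3) (evU F) (fun _ => rfl)
    {φ : OU n d k | φ.1 ∈ Inv n d k}
    (fun a ha c => (Inv n d k).sub_mem ha ((Inv n d k).algebraMap_mem c)) r
    (fun i => ⟨t i, htU i⟩) (fun i => ht.zero i) (fun φ hφ hF => by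
      obtain ⟨s, hs, hsF, a, ha, h7⟩ := ht.gen φ.1 hφ hF
      refine ⟨⟨s, hs.1⟩, hs, hsF, fun i => ⟨a i, (ha i).1⟩, ha, ?_⟩
      apply Subtype.ext
      rw [AddSubmonoidClass.coe_finsetSum]
      exact h7)
  obtain ⟨P, Q, hPQ⟩ := b.2
  refine ⟨P, ?_, fun h hh φ hφ => ?_⟩
  · intro h0
    have h4 := (hPQ F).2
    have h5 : b.1 F = 1 := hbF
    rw [h0, zero_div, h5] at h4
    exact one_ne_zero h4
  · have hbh : b.1 h ≠ 0 := by
      rw [(hPQ h).2]
      exact div_ne_zero hh (hPQ h).1
    obtain ⟨a, ha⟩ := hb ⟨φ, hφ.1⟩ hφ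
    refine ⟨fun i => (a i).1 h / b.1 h, fun v => ?_⟩
    have h22 : ∀ q, b.1 h * dU φ h (Pi.single q 1) =
        ∑ i, (a i).1 h * dU (t i) h (Pi.single q 1) := by
      intro q
      have h23 := congrArg (fun x : Ix n d → OU n d k => evU h (x q)) ha
      simp only [Finset.sum_apply, map_sum] at h23
      exact h23.symm
    rw [dU_sum h3 hφ.1 h v]
    have h24 : ∀ i, (a i).1 h / b.1 h * dU (t i) h v =
        ∑ q, v q * ((a i).1 h / b.1 h * dU (t i) h (Pi.single q 1)) := by
      intro i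
      rw [dU_sum h3 (htU i) h v, Finset.mul_sum]
      refine Finset.sum_congr rfl fun q _ => ?_
      ring
    simp only [h24]
    rw [Finset.sum_comm]
    refine Finset.sum_congr rfl fun q _ => ?_
    rw [← Finset.mul_sum]
    congr 1
    have h25 := h22 q
    have h26 : dU φ h (Pi.single q 1) = (b.1 h * dU φ h (Pi.single q 1)) / b.1 h := by
      field_simp
    rw [h26, h25, Finset.sum_div]
    refine Finset.sum_congr rfl fun i _ => ?_
    ring

end

end Run7.h433.MD
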